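import Mathlib

/-!
# A Schauder basis of `ℓ₁` which is LUCC but not SUCC
-/

open Filter Topology

namespace Pool.Agent.Results.MP_ee84c2_an.LuccNotSucc

section Defs

variable (𝕜 : Type) [RCLike 𝕜] {X : Type} [NormedAddCommGroup X] [NormedSpace 𝕜 X]

/-- SUCC: suppression unconditional for constant coefficients. -/
def SUCC (x : ℕ → X) : Prop :=
  ∃ C : ℝ, 1 ≤ C ∧ ∀ (A B : Finset ℕ) (ε : ℕ → 𝕜), B ⊆ A → (∀ n ∈ A, ‖ε n‖ = 1) →
    ‖∑ n ∈ B, ε n • x n‖ ≤ C * ‖∑ n ∈ A, ε n • x n‖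

/-- LUCC with constant `C`: lower unconditional for constant coefficients. -/
def LUCCWith (C : ℝ) (x : ℕ → X) : Prop :=
  ∀ (A : Finset ℕ) (ε : ℕ → 𝕜) (a : ℕ → ℝ), (∀ n ∈ A, ‖ε n‖ = 1) → (∀ n ∈ A, 1 ≤ a n) →
    ‖∑ n ∈ A, ε n • x n‖ ≤ C * ‖∑ n ∈ A, (ε n * (a n : 𝕜)) • x n‖

/-- A basis with its biorthogonal functionals: the closed span is everything. -/
structure IsBasisWith (x : ℕ → X) (f : ℕ → StrongDual 𝕜 X) : Prop where
  dense : Dense (Submodule.span 𝕜 (Set.range x) : Set X)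
  biorth : ∀ k n, f k (x n) = if k = n then 1 else 0

/-- Schauder basis: each `y` has exactly one norm convergent expansion. -/
def IsSchauderBasis (x : ℕ → X) : Prop :=
  ∀ y : X, ∃! α : ℕ → 𝕜, Tendsto (fun n => ∑ i ∈ Finset.range n, α i • x i) atTop (𝓝 y)

end Defs

section Construction

variable (𝕜 : Type) [RCLike 𝕜]

/-- The space `ℓ₁`. -/
abbrev L1 : Type := lp (fun _ : ℕ => 𝕜) 1

/-- The unit vectors. -/
noncomputable def e (n : ℕ) : L1 𝕜 := lp.single 1 n (1 : 𝕜)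

variable {𝕜}

lemma e_apply (n j : ℕ) : e 𝕜 n j = if j = n then 1 else 0 := by
  simp [e, lp.single_apply, Pi.single_apply]

lemma norm_eq (y : L1 𝕜) : ‖y‖ = ∑' j, ‖y j‖ := by
  have := lp.norm_rpow_eq_tsum (p := 1) (by norm_num) y
  simpa using this

lemma summ (y : L1 𝕜) : Summable fun j => ‖y j‖ := by
  have := (lp.memℓp y).summable (by norm_num)
  simpa using this

lemma norm_e (n : ℕ) : ‖e 𝕜 n‖ = 1 := by
  rw [e, lp.norm_single (by norm_num)]
  simp

variable (𝕜)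

/-- The difference basis `e 0, e 1 - e 0, e 2 - e 1, …`. -/
noncomputable def x : ℕ → L1 𝕜
  | 0 => e 𝕜 0
  | n + 1 => e 𝕜 (n + 1) - e 𝕜 n

variable {𝕜}

lemma x_apply (n j : ℕ) :
    x 𝕜 n j = (if j = n then 1 else 0) - (if j + 1 = n then 1 else 0) := by
  cases n with
  | zero => simp [x, e_apply]
  | succ n => simp [x, e_apply]

lemma sum_apply (A : Finset ℕ) (c : ℕ → 𝕜) (j : ℕ) :
    (∑ n ∈ A, c n • x 𝕜 n : L1 𝕜) j =
      (if j ∈ A then c j else 0) - (if j + 1 ∈ A then c (j + 1) else 0) := by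
  simp only [lp.coeFn_sum, Finset.sum_apply, lp.coeFn_smul, Pi.smul_apply, x_apply, smul_eq_mul,
    mul_sub, mul_ite, mul_one, mul_zero, Finset.sum_sub_distrib, Finset.sum_ite_eq]

/-- The key inequality. -/
lemma key {s t : 𝕜} (hs : ‖s‖ = 1) (ht : ‖t‖ = 1) {a b : ℝ} (ha : 1 ≤ a) (hb : 1 ≤ b) :
    ‖s - t‖ ≤ ‖s * (a : 𝕜) - t * (b : 𝕜)‖ := by
  refine le_of_sq_le_sq ?_ (norm_nonneg _)
  have h1 : ‖s - t‖ ^ 2 = 2 - 2 * RCLike.re (inner 𝕜 s t) := by
    rw [norm_sub_sq (𝕜 := 𝕜), hs, ht]; ring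
  have h2 : ‖s * (a : 𝕜) - t * (b : 𝕜)‖ ^ 2 =
      a ^ 2 - 2 * (a * b * RCLike.re (inner 𝕜 s t)) + b ^ 2 := by
    rw [norm_sub_sq (𝕜 := 𝕜), norm_mul, norm_mul, hs, ht, RCLike.norm_ofReal, RCLike.norm_ofReal,
      abs_of_nonneg (by linarith), abs_of_nonneg (by linarith)]
    have h3 : inner 𝕜 (s * (a : 𝕜)) (t * (b : 𝕜)) = ((a * b : ℝ) : 𝕜) * inner 𝕜 s t := by
      simp only [RCLike.inner_apply, map_mul, RCLike.conj_ofReal]
      ring
    rw [h3, RCLike.re_ofReal_mul]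
    ring
  have h4 : RCLike.re (inner 𝕜 s t) ≤ 1 := by
    have := re_inner_le_norm (𝕜 := 𝕜) s t
    rw [hs, ht] at this
    linarith
  rw [h1, h2]
  have hab : 1 ≤ a * b := by nlinarith
  nlinarith [sq_nonneg (a - b), mul_nonneg (sub_nonneg.2 hab) (sub_nonneg.2 h4)]

lemma lucc : LUCCWith 𝕜 1 (x 𝕜) := by
  intro A ε a hε ha
  rw [one_mul, norm_eq, norm_eq]
  refine Summable.tsum_le_tsum (fun j => ?_) (summ _) (summ _)
  rw [sum_apply, sum_apply]
  have h1 : ∀ n ∈ A, ‖ε n‖ ≤ ‖ε n * (a n : 𝕜)‖ := by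
    intro n hn
    rw [norm_mul, hε n hn, RCLike.norm_ofReal, one_mul]
    exact (ha n hn).trans (le_abs_self _)
  split_ifs with h2 h3 h3
  · exact key (hε _ h2) (hε _ h3) (ha _ h2) (ha _ h3)
  · simpa using h1 _ h2
  · rw [zero_sub, zero_sub, norm_neg, norm_neg]; exact h1 _ h3
  · simp

lemma not_succ : ¬ SUCC 𝕜 (x 𝕜) := by
  rintro ⟨C, hC, h⟩
  obtain ⟨m, hm⟩ := exists_nat_gt C
  have h1 := h (Finset.range (2 * m + 1)) ((Finset.range (2 * m + 1)).filter Even) (fun _ => 1)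
    (Finset.filter_subset _ _) (fun _ _ => norm_one)
  have hA : ‖∑ n ∈ Finset.range (2 * m + 1), (1 : 𝕜) • x 𝕜 n‖ = 1 := by
    rw [norm_eq, tsum_eq_single (2 * m)]
    · rw [sum_apply]
      simp
    · intro j hj
      rw [sum_apply]
      simp only [Finset.mem_range]
      split_ifs
      · simp
      · omega
      · omega
      · simp
  have hB : (2 * m : ℝ) ≤
      ‖∑ n ∈ (Finset.range (2 * m + 1)).filter Even, (1 : 𝕜) • x 𝕜 n‖ := by
    rw [norm_eq]
    have h2 := (summ (∑ n ∈ (Finset.range (2 * m + 1)).filter Even, (1 : 𝕜) • x 𝕜 n)).sum_le_tsum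
      (Finset.range (2 * m)) (fun _ _ => norm_nonneg _)
    refine le_trans (le_of_eq ?_) h2
    rw [Finset.sum_congr rfl (g := fun _ => (1 : ℝ)), Finset.sum_const, Finset.card_range]
    · simp
    · intro j hj
      rw [Finset.mem_range] at hj
      rw [sum_apply]
      simp only [Finset.mem_filter, Finset.mem_range, Nat.even_add_one]
      by_cases he : Even j
      · rw [if_pos ⟨by omega, he⟩, if_neg (fun h => h.2 he)]
        simp
      · rw [if_neg (fun h => he h.2), if_pos ⟨by omega, he⟩]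
        simp
  rw [hA, mul_one] at h1
  have h3 : (0 : ℝ) ≤ m := Nat.cast_nonneg m
  linarith

variable (𝕜)

/-- The coefficient functionals: tail sums. -/
noncomputable def f (n : ℕ) : StrongDual 𝕜 (L1 𝕜) :=
  LinearMap.mkContinuous
    { toFun := fun y => ∑' j, y (j + n)
      map_add' := by
        intro y z
        have h1 : ∀ w : L1 𝕜, Summable fun j => w (j + n) := fun w =>
          (summable_nat_add_iff n).2 (summ w).of_norm
        simp only [lp.coeFn_add, Pi.add_apply]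
        exact (h1 y).tsum_add (h1 z)
      map_smul' := by
        intro c y
        simp only [lp.coeFn_smul, Pi.smul_apply, smul_eq_mul, RingHom.id_apply]
        exact tsum_mul_left }
    1 (by
      intro y
      simp only [LinearMap.coe_mk, AddHom.coe_mk, one_mul]
      have h1 : Summable fun j => ‖y (j + n)‖ := (summable_nat_add_iff n).2 (summ y)
      refine (norm_tsum_le_tsum_norm h1).trans ?_
      rw [norm_eq, ← (summ y).sum_add_tsum_nat_add n]
      have : 0 ≤ ∑ i ∈ Finset.range n, ‖y i‖ := Finset.sum_nonneg fun _ _ => norm_nonneg _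
      linarith)

variable {𝕜}

lemma f_apply (n : ℕ) (y : L1 𝕜) : f 𝕜 n y = ∑' j, y (j + n) := rfl

lemma norm_f_le (n : ℕ) : ‖f 𝕜 n‖ ≤ 1 :=
  LinearMap.mkContinuous_norm_le _ zero_le_one _

lemma f_e (k n : ℕ) : f 𝕜 k (e 𝕜 n) = if k ≤ n then 1 else 0 := by
  rw [f_apply]
  simp only [e_apply]
  split_ifs with h
  · rw [tsum_eq_single (n - k)]
    · rw [if_pos (by omega)]
    · intro j hj
      rw [if_neg (by omega)]
  · rw [← tsum_zero (α := 𝕜) (β := ℕ)]
    congr 1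
    funext j
    rw [if_neg (by omega)]

lemma biorth (k n : ℕ) : f 𝕜 k (x 𝕜 n) = if k = n then 1 else 0 := by
  cases n with
  | zero => simp [x, f_e]
  | succ n =>
    simp only [x, map_sub, f_e]
    rcases lt_trichotomy k (n + 1) with h | h | h
    · rw [if_pos (by omega), if_pos (by omega), if_neg (by omega), sub_self]
    · rw [if_pos (by omega), if_neg (by omega), if_pos (by omega), sub_zero]
    · rw [if_neg (by omega), if_neg (by omega), if_neg (by omega), sub_self]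

lemma f_succ (n : ℕ) (y : L1 𝕜) : f 𝕜 n y = y n + f 𝕜 (n + 1) y := by
  rw [f_apply, f_apply]
  have h1 : Summable fun j => y (j + n) := (summable_nat_add_iff n).2 (summ y).of_norm
  rw [h1.tsum_eq_zero_add]
  simp only [zero_add]
  congr 1
  refine tsum_congr fun j => ?_
  rw [show j + 1 + n = j + (n + 1) by omega]

lemma psum_eq (y : L1 𝕜) (N : ℕ) :
    ∑ i ∈ Finset.range (N + 1), f 𝕜 i y • x 𝕜 i =
      ∑ j ∈ Finset.range (N + 1), y j • e 𝕜 j + f 𝕜 (N + 1) y • e 𝕜 N := by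
  induction N with
  | zero =>
    simp only [zero_add, Finset.range_one, Finset.sum_singleton, x]
    rw [f_succ, add_smul]
  | succ N ih =>
    rw [Finset.sum_range_succ, ih, Finset.sum_range_succ _ (N + 1)]
    simp only [x]
    rw [f_succ (N + 1) y]
    simp only [smul_sub, add_smul]
    abel

lemma tendsto_trunc (y : L1 𝕜) :
    Tendsto (fun N => ∑ j ∈ Finset.range N, y j • e 𝕜 j) atTop (𝓝 y) := by
  have h1 := (lp.hasSum_single (p := 1) (by norm_num) y).tendsto_sum_nat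
  refine h1.congr fun N => Finset.sum_congr rfl fun j _ => ?_
  rw [e, ← lp.single_smul, smul_eq_mul, mul_one]

lemma tendsto_psum (y : L1 𝕜) :
    Tendsto (fun N => ∑ i ∈ Finset.range N, f 𝕜 i y • x 𝕜 i) atTop (𝓝 y) := by
  rw [← tendsto_add_atTop_iff_nat 1]
  simp only [psum_eq]
  have h1 := (tendsto_add_atTop_iff_nat 1).2 (tendsto_trunc y)
  have h2 : Tendsto (fun N => f 𝕜 (N + 1) y • e 𝕜 N) atTop (𝓝 0) := by
    rw [tendsto_zero_iff_norm_tendsto_zero]
    have h3 : Tendsto (fun N => f 𝕜 (N + 1) y) atTop (𝓝 0) :=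
      (tendsto_add_atTop_iff_nat 1).2 (tendsto_sum_nat_add (fun j => y j))
    refine (tendsto_zero_iff_norm_tendsto_zero.1 h3).congr fun N => ?_
    rw [norm_smul, norm_e, mul_one]
  simpa using h1.add h2

lemma isSchauder : IsSchauderBasis 𝕜 (x 𝕜) := by
  intro y
  refine ⟨fun i => f 𝕜 i y, tendsto_psum y, fun α hα => ?_⟩
  funext k
  refine tendsto_nhds_unique (f := fun _ : ℕ => α k) tendsto_const_nhds
    ((((f 𝕜 k).continuous.tendsto y).comp hα).congr' ?_)
  filter_upwards [eventually_gt_atTop k] with n hn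
  simp only [Function.comp, map_sum, map_smul, biorth, smul_eq_mul, mul_ite, mul_one, mul_zero]
  rw [Finset.sum_ite_eq, if_pos (Finset.mem_range.2 hn)]

lemma isBasis : IsBasisWith 𝕜 (x 𝕜) (f 𝕜) where
  dense := by
    intro y
    refine mem_closure_of_tendsto (tendsto_psum y) (Eventually.of_forall fun n => ?_)
    exact Submodule.sum_mem _ fun i _ => Submodule.smul_mem _ _ (Submodule.subset_span ⟨_, rfl⟩)
  biorth := biorth

lemma norm_x_le (n : ℕ) : ‖x 𝕜 n‖ ≤ 2 := by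
  cases n with
  | zero => rw [x, norm_e]; norm_num
  | succ n =>
    rw [x]
    refine (norm_sub_le _ _).trans ?_
    rw [norm_e, norm_e]; norm_num

lemma one_le_norm_x (n : ℕ) : 1 ≤ ‖x 𝕜 n‖ := by
  have h1 := (f 𝕜 n).le_opNorm (x 𝕜 n)
  rw [biorth, if_pos rfl, norm_one] at h1
  have := norm_f_le (𝕜 := 𝕜) n
  have h2 := norm_nonneg (x 𝕜 n)
  nlinarith

end Construction

/-- **Main result.** There are a Banach space (real or complex) and a semi-normalized, M-bounded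
Schauder basis of it that is LUCC with constant one but not SUCC. -/
theorem result (𝕜 : Type) [RCLike 𝕜] :
    ∃ (X : Type) (_ : NormedAddCommGroup X) (_ : NormedSpace 𝕜 X) (_ : CompleteSpace X)
      (x : ℕ → X) (f : ℕ → StrongDual 𝕜 X),
      IsBasisWith 𝕜 x f ∧ IsSchauderBasis 𝕜 x ∧ (∀ n, 1 ≤ ‖x n‖ ∧ ‖x n‖ ≤ 2) ∧
      (∀ n, ‖f n‖ ≤ 1) ∧ LUCCWith 𝕜 1 x ∧ ¬ SUCC 𝕜 x :=
  ⟨L1 𝕜, inferInstance, inferInstance, inferInstance, x 𝕜, f 𝕜, isBasis, isSchauder,
    fun n => ⟨one_le_norm_x n, norm_x_le n⟩, norm_f_le, lucc, not_succ⟩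

end Pool.Agent.Results.MP_ee84c2_an.LuccNotSucc
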